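import Pool.Agent.Y981.L2.PolyE

/-!
The width of the planar self-avoiding polygons.  The law of the width of the uniform polygon with
`2 n` steps is, up to factors `exp (± K (log n)^2)`, the law of the end point of the uniform
`2 n`-step self-avoiding walk on the axis, and both are `exp (- 2 n J (k / n))` with one convex
function `J`.
-/

set_option autoImplicit false

namespace Pool.Agent.Results.MP_c23e5f_co.PolygonWidthLawLogTwo

/-- a closed nearest-neighbour loop on `ℤ²` with `m` steps, rooted at the origin and oriented,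
that visits no vertex twice -/
def IsLoop (m : ℕ) (f : ZMod m → ℤ × ℤ) : Prop :=
  f 0 = 0 ∧ Function.Injective f ∧
    ∀ i : ZMod m, |(f (i + 1)).1 - (f i).1| + |(f (i + 1)).2 - (f i).2| = 1

/-- the width (horizontal extent) of a loop -/
noncomputable def width (m : ℕ) (f : ZMod m → ℤ × ℤ) : ℕ :=
  sSup {w : ℕ | ∃ i j, w = ((f i).1 - (f j).1).natAbs}

/-- the proportion of the self-avoiding polygons of perimeter `2 n` with width at least `r` -/
noncomputable def wide (n : ℕ) (r : ℝ) : ℝ :=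
  ({f : ZMod (2 * n) → ℤ × ℤ | IsLoop (2 * n) f ∧ r ≤ width (2 * n) f}.ncard : ℝ) /
    ({f : ZMod (2 * n) → ℤ × ℤ | IsLoop (2 * n) f}.ncard : ℝ)

/-- `ω` is an `n`-step self-avoiding walk on `ℤ²` started at the origin. -/
def IsSAW (n : ℕ) (ω : Fin (n + 1) → ℤ × ℤ) : Prop :=
  ω 0 = (0, 0) ∧
  (∀ i : Fin n, |(ω i.succ).1 - (ω i.castSucc).1| + |(ω i.succ).2 - (ω i.castSucc).2| = 1) ∧
  Function.Injective ω

/-- `c_n`: the number of `n`-step self-avoiding walks from the origin -/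
noncomputable def c (n : ℕ) : ℕ := Nat.card {ω : Fin (n + 1) → ℤ × ℤ // IsSAW n ω}

/-- `c_n(x)`: the number of `n`-step self-avoiding walks from the origin to `x` -/
noncomputable def cx (n : ℕ) (x : ℤ × ℤ) : ℕ :=
  Nat.card {ω : Fin (n + 1) → ℤ × ℤ // IsSAW n ω ∧ ω (Fin.last n) = x}

/-- `P_n(ω(n) = x)` for the uniform `n`-step self-avoiding walk -/
noncomputable def P (n : ℕ) (x : ℤ × ℤ) : ℝ := (cx n x : ℝ) / (c n : ℝ)

theorem c_eq (n : ℕ) : c n = TH795.EP.c n := TH795.EP2.card_walks n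

theorem cx_eq (n : ℕ) (x : ℤ × ℤ) : cx n x = TH795.EP.a n x.1 x.2 := TH795.EP2.card_walks_to n x

theorem convex_R : ConvexOn ℝ (Set.Icc 0 1) Y981.L2.R := by
  refine ⟨convex_Icc 0 1, ?_⟩
  intro u hu v hv s t hs ht hst
  have h := Y981.L2.convex_rate.2 (Y981.L2.dia_one hu.1 hu.2) (Y981.L2.dia_one hv.1 hv.2) hs ht hst
  unfold Y981.L2.R
  refine le_trans (le_of_eq ?_) h
  congr 1
  ext <;> simp

/-- **Theorem.** There are `K` and a convex nonnegative function `J` on `[0, 1]` such that for all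
`n ≥ 2` and `1 ≤ k < n`: the logarithm of the proportion of the self-avoiding polygons of perimeter
`2 n` whose width is at least `k` differs from `log P_{2n}(ω(2n) = (2k, 0))` and from
`- 2 n J(k / n)` by at most `K (log n)^2`. -/
theorem result : ∃ (K : ℝ) (J : ℝ → ℝ), ConvexOn ℝ (Set.Icc 0 1) J ∧
    (∀ v : ℝ, 0 ≤ v → v ≤ 1 → 0 ≤ J v) ∧ ∀ n : ℕ, 2 ≤ n → ∀ k : ℕ, 1 ≤ k → k < n →
      |Real.log (wide n k) - Real.log (P (2 * n) (2 * k, 0))| ≤ K * Real.log n ^ 2 ∧
      |Real.log (wide n k) + 2 * n * J ((k : ℝ) / n)| ≤ K * Real.log n ^ 2 := by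
  obtain ⟨K, hK⟩ := Y981.L2.log_pw
  obtain ⟨K2, hK2, h2⟩ := Y981.L2.pw_ldp
  refine ⟨|K| + K2, Y981.L2.R, convex_R, fun v h0 h1 => Y981.L2.R_nonneg h0 h1, ?_⟩
  intro n hn k hk hkn
  have h := hK n hn k hk hkn
  obtain ⟨g1, g2⟩ := h2 n hn k hk hkn
  have hw : wide n k = Y981.L2.pw n k := rfl
  have hL : 0 ≤ Real.log (n : ℝ) ^ 2 := by positivity
  have hKa : K * Real.log (n : ℝ) ^ 2 ≤ |K| * Real.log (n : ℝ) ^ 2 :=
    mul_le_mul_of_nonneg_right (le_abs_self K) hL
  have hKb : 0 ≤ |K| * Real.log (n : ℝ) ^ 2 := mul_nonneg (abs_nonneg K) hL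
  have hKc : 0 ≤ K2 * Real.log (n : ℝ) ^ 2 := mul_nonneg hK2 hL
  constructor
  · unfold P
    rw [c_eq, cx_eq]
    refine le_trans h ?_
    linarith
  · rw [hw]
    have hp : 0 < Y981.L2.pw n k := lt_of_lt_of_le (Real.exp_pos _) g1
    rw [← Real.le_log_iff_exp_le hp] at g1
    rw [← Real.log_le_iff_le_exp hp] at g2
    rw [abs_le]
    constructor <;> linarith

end Pool.Agent.Results.MP_c23e5f_co.PolygonWidthLawLogTwo
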