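import Pool.Agent.Y943.SL.PolW

/-!
Mean width of square-lattice self-avoiding polygons: if the number and the mean width of the polygons
obey power laws along a set of `n` with gaps `o(√n)`, they do so for all `n`.
-/

set_option autoImplicit false

namespace Pool.Agent.Results.MP_c23e5f_co.SparseLengths

open Filter Topology

/-- the number of `n`-step self-avoiding walks on `ℤ²` started at the origin -/
noncomputable def c (n : ℕ) : ℕ :=
  Nat.card {f : Fin (n + 1) → ℤ × ℤ // f 0 = 0 ∧ Function.Injective f ∧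
    ∀ i : Fin n, |(f i.succ).1 - (f i.castSucc).1| + |(f i.succ).2 - (f i.castSucc).2| = 1}

/-- a closed nearest-neighbour loop on `ℤ²` with `m` steps, rooted at the origin and oriented,
that visits no vertex twice -/
def IsLoop (m : ℕ) (f : ZMod m → ℤ × ℤ) : Prop :=
  f 0 = 0 ∧ Function.Injective f ∧
    ∀ i : ZMod m, |(f (i + 1)).1 - (f i).1| + |(f (i + 1)).2 - (f i).2| = 1

/-- the number of self-avoiding polygons of perimeter `2n` on `ℤ²` up to translation: the number of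
loops divided by `4n` (the choices of the starting point and of the orientation) -/
noncomputable def p (n : ℕ) : ℝ :=
  ((Nat.card {f : ZMod (2 * n) → ℤ × ℤ // IsLoop (2 * n) f} : ℕ) : ℝ) / (4 * (n : ℝ))

/-- the width (horizontal extent) of a loop -/
noncomputable def width (m : ℕ) (f : ZMod m → ℤ × ℤ) : ℕ :=
  sSup {w : ℕ | ∃ i j, w = ((f i).1 - (f j).1).natAbs}

/-- the mean width `W_n` of the self-avoiding polygons of perimeter `2 n`: the average of the
width over the rooted oriented polygons. -/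
noncomputable def W (n : ℕ) : ℝ :=
  (∑ᶠ f ∈ {f : ZMod (2 * n) → ℤ × ℤ | IsLoop (2 * n) f}, (width (2 * n) f : ℝ)) /
    ({f : ZMod (2 * n) → ℤ × ℤ | IsLoop (2 * n) f}.ncard : ℝ)

lemma c_eq (n : ℕ) : (c n : ℝ) = H981.cr' n := by
  rw [H981.cr'_eq]
  unfold c H981.C H981.IsSAW
  congr 1
  apply Nat.card_congr
  apply Equiv.subtypeEquivRight
  intro f
  constructor
  · rintro ⟨h0, h1, h2⟩
    exact ⟨h0, h2, h1⟩
  · rintro ⟨h0, h2, h1⟩
    exact ⟨h0, h1, h2⟩

lemma p_eq (n : ℕ) : p n = H981.PP n := rfl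

lemma W_eq (n : ℕ) : W n = Pool.Agent.H739K.MW n := rfl

/-- the gaps of the set `S` are `o(√n)` -/
def SmallGaps (S : Set ℕ) : Prop :=
  ∀ δ : ℝ, 0 < δ → ∀ᶠ n : ℕ in atTop, ∃ m ∈ S, n ≤ m ∧ (m : ℝ) ≤ n + δ * Real.sqrt n

/-- the gaps of the set `S` are `O(√n)` -/
def BoundedGaps (S : Set ℕ) : Prop :=
  ∃ K : ℝ, ∀ᶠ n : ℕ in atTop, ∃ m ∈ S, n ≤ m ∧ (m : ℝ) ≤ n + K * Real.sqrt n

/-- the gaps of the set `S` are `o(√(n log n))` -/
def LogGaps (S : Set ℕ) : Prop :=
  ∀ δ : ℝ, 0 < δ → ∀ᶠ n : ℕ in atTop, ∃ m ∈ S, n ≤ m ∧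
    (m : ℝ) ≤ n + δ * Real.sqrt (n * Real.log n)

/-- **Theorem.** Let `μ` be the connective constant of `ℤ²`, `q_n = p_{2n} μ^(-2n)`, `W_n` the mean
width of the polygons of perimeter `2n`.  For every set `S` of natural numbers and all real `θ`, `κ`:
(1) if `S` has gaps `o(√n)` and `q_n n^θ → C > 0`, `W_n / n^κ → E > 0` along `S`, then
`W_n / n^κ → E`;
(2) if `S` has gaps `O(√n)` and `q_n n^θ`, `W_n / n^κ` are bounded and bounded away from `0` along `S`,
then `W_n / n^κ` is bounded and bounded away from `0`;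
(3) if `S` has gaps `o(√(n log n))` and `log q_n / log n → -θ`, `log W_n / log n → κ` along `S`, then
`log W_n / log n → κ`. -/
theorem result : ∃ μ : ℝ, 0 < μ ∧
    Tendsto (fun n : ℕ => (c n : ℝ) ^ ((1:ℝ) / (n : ℝ))) atTop (𝓝 μ) ∧
    ∀ (S : Set ℕ) (θ κ : ℝ),
      (SmallGaps S → ∀ C E : ℝ, 0 < C → 0 < E →
        Tendsto (fun n : ℕ => p n / μ ^ (2 * n) * (n : ℝ) ^ θ) (atTop ⊓ 𝓟 S) (𝓝 C) →
        Tendsto (fun n : ℕ => W n / (n : ℝ) ^ κ) (atTop ⊓ 𝓟 S) (𝓝 E) →
        Tendsto (fun n : ℕ => W n / (n : ℝ) ^ κ) atTop (𝓝 E)) ∧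
      (BoundedGaps S →
        (∃ a b : ℝ, 0 < a ∧ ∀ᶠ n : ℕ in atTop, n ∈ S →
          a ≤ p n / μ ^ (2 * n) * (n : ℝ) ^ θ ∧ p n / μ ^ (2 * n) * (n : ℝ) ^ θ ≤ b) →
        (∃ a b : ℝ, 0 < a ∧ ∀ᶠ n : ℕ in atTop, n ∈ S →
          a ≤ W n / (n : ℝ) ^ κ ∧ W n / (n : ℝ) ^ κ ≤ b) →
        ∃ a b : ℝ, 0 < a ∧ ∀ᶠ n : ℕ in atTop,
          a ≤ W n / (n : ℝ) ^ κ ∧ W n / (n : ℝ) ^ κ ≤ b) ∧
      (LogGaps S →
        Tendsto (fun n : ℕ => Real.log (p n / μ ^ (2 * n)) / Real.log n) (atTop ⊓ 𝓟 S)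
          (𝓝 (-θ)) →
        Tendsto (fun n : ℕ => Real.log (W n) / Real.log n) (atTop ⊓ 𝓟 S) (𝓝 κ) →
        Tendsto (fun n : ℕ => Real.log (W n) / Real.log n) atTop (𝓝 κ)) := by
  refine ⟨H981.mu, H981.mu_pos, ?_, fun S θ κ => ⟨fun hS C E hC hE h hW => ?_, fun hS h hW => ?_,
    fun hS h hW => ?_⟩⟩
  · simp only [c_eq]
    exact H981.tendsto_root
  · have h1 := Pool.Agent.Y943.SL.mx_width.form S hS C (2 * E) θ κ hC (by linarith) h
      ((hW.const_mul 2).congr fun n => by rw [W_eq]; ring)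
    have h2 := h1.const_mul (1 / 2)
    rw [show 1 / 2 * (2 * E) = E by ring] at h2
    refine h2.congr fun n => ?_
    rw [W_eq]
    ring
  · obtain ⟨a, b, ha, hW⟩ := hW
    obtain ⟨a', b', ha', h'⟩ := Pool.Agent.Y943.SL.mx_width.bdd S hS θ κ h (by
      refine ⟨2 * a, 2 * b, by linarith, ?_⟩
      filter_upwards [hW] with n h1 h2
      obtain ⟨h3, h4⟩ := h1 h2
      rw [W_eq] at h3 h4
      rw [mul_div_assoc]
      constructor <;> linarith)
    refine ⟨a' / 2, b' / 2, by linarith, ?_⟩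
    filter_upwards [h'] with n h1
    rw [mul_div_assoc] at h1
    rw [W_eq]
    constructor <;> linarith [h1.1, h1.2]
  · have key : ∀ᶠ n : ℕ in atTop, Real.log (2 * Pool.Agent.H739K.MW n) / Real.log n =
        Real.log 2 / Real.log n + Real.log (W n) / Real.log n := by
      filter_upwards [eventually_ge_atTop 2] with n hn
      have h1 : 0 < 2 * Pool.Agent.H739K.MW n := Pool.Agent.Y943.SL.mx_width.pos hn
      rw [W_eq, Real.log_mul (by norm_num) (by linarith : (0 : ℝ) < Pool.Agent.H739K.MW n).ne',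
        add_div]
    have hz : Tendsto (fun n : ℕ => Real.log 2 / Real.log (n : ℝ)) atTop (𝓝 0) :=
      (Real.tendsto_log_atTop.comp tendsto_natCast_atTop_atTop).const_div_atTop (Real.log 2)
    have key' : ∀ᶠ n : ℕ in atTop ⊓ 𝓟 S, Real.log 2 / Real.log n + Real.log (W n) / Real.log n =
        Real.log (2 * Pool.Agent.H739K.MW n) / Real.log n := by
      have k1 : ∀ᶠ n : ℕ in atTop ⊓ 𝓟 S, Real.log (2 * Pool.Agent.H739K.MW n) / Real.log n =
        Real.log 2 / Real.log n + Real.log (W n) / Real.log n := key.filter_mono inf_le_left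
      filter_upwards [k1] with n hn
      exact hn.symm
    have h1 := (hz.mono_left (inf_le_left : atTop ⊓ 𝓟 S ≤ atTop)).add hW
    rw [zero_add] at h1
    have h2 := Pool.Agent.Y943.SL.mx_width.expo S hS θ κ h (h1.congr' key')
    have h3 := (h2.congr' key).sub hz
    rw [sub_zero] at h3
    refine h3.congr fun n => ?_
    ring

end Pool.Agent.Results.MP_c23e5f_co.SparseLengths
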